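import Mathlib
import Pool.Agent.Results.MP_7b039f_nt.FrobeniusIncidence
import Pool.Agent.Y713.FI.Low
import Pool.Agent.Y713.FI.Up

/-!
# The exact abscissa of convergence for all Frobenius powers

Let `F` be a finite field of characteristic `p`, `K = F(t)`, `e ≥ 1`, `n ≥ r = p ^ e`. The hypersurface
`V : ∑ x_i y_i ^ r = 0` of bidegree `(1, r)` in `P^n x P^n` is smooth and geometrically irreducible,
and its anticanonical sheaf is `O(n, n + 1 - r)`.

**Theorem.** The anticanonical height zeta function of *every* dense open subset `U` of `V` has the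
abscissa of convergence exactly `n / (n + 1 - r) > 1`. So over every finite field the abscissae of
these varieties are dense in `[1, ∞)`; they are unbounded.

The definitions (heights, the embedding by `O(n, n + 1 - r)`, rational points, dense open subsets,
abscissa) are those of the earlier file `FrobeniusIncidence`, which contains the lower bound
`n / (n + 1 - p)` for `r = p`.

Proof. For the lower bound, the fibre over a point `x = a ^ r` is the hyperplane `∑ a_i y_i = 0` with
multiplicity `r`; these points are dense. For the upper bound, if `x_k ≠ 0` the coordinate `y_k` is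
determined by the other ones, since the map `y ↦ y ^ r` is injective; so the zeta function of `V` is
dominated by the product of the sum of `q ^ (-s n h(x))` over `P^n(K)`, which converges for
`s > (n + 1) / n`, and of a sum `q ^ (-s (n + 1 - r) h(z))` over vectors of length `n`, which
converges for `s > n / (n + 1 - r)`; and `n / (n + 1 - r) ≥ (n + 1) / n`.
-/

set_option autoImplicit false

namespace Pool.Agent.Results.MP_7b039f_nt.AllFrobeniusPowers

open Pool.Agent.Results.MP_7b039f_nt.FrobeniusIncidence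

theorem one_lt {n r : ℕ} (hr : 2 ≤ r) (hn : r ≤ n) : 1 < (n : ℝ) / ((n : ℝ) + 1 - r) := by
  have h1 : (r : ℝ) ≤ n := by exact_mod_cast hn
  have h2 : (2 : ℝ) ≤ r := by exact_mod_cast hr
  rw [lt_div_iff₀ (by linarith)]
  linarith

/-- The exact abscissa of convergence. -/
theorem exact (F : Type) [Field F] [Finite F] (p e n : ℕ) [Fact p.Prime] [CharP F p]
    (he : 1 ≤ e) (hn : p ^ e ≤ n) (S : Set (BiPoly (RatFunc F) n))
    (hS : IsDenseOpen (RatFunc F) n (p ^ e) S) :
    abscissa F n (p ^ e) S = (((n : ℝ) / ((n : ℝ) + 1 - (p ^ e : ℕ)) : ℝ) : EReal) := by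
  have hr2 : 2 ≤ p ^ e := by
    calc 2 ≤ p := (Fact.out : p.Prime).two_le
      _ = p ^ 1 := (pow_one p).symm
      _ ≤ p ^ e := Nat.pow_le_pow_right (Fact.out : p.Prime).pos he
  apply le_antisymm
  · by_contra hcon
    push Not at hcon
    obtain ⟨s, h1, h2⟩ := EReal.lt_iff_exists_real_btwn.1 hcon
    have h3 : abscissa F n (p ^ e) S ≤ (s : EReal) :=
      sInf_le ⟨s, rfl, Pool.Agent.Y713.FI.converges p rfl hr2 hn S s (EReal.coe_lt_coe_iff.1 h1)⟩
    exact absurd h2 (not_lt.2 h3)
  · apply le_sInf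
    rintro σ ⟨s, rfl, hs⟩
    rw [EReal.coe_le_coe_iff]
    by_contra hcon
    push Not at hcon
    obtain ⟨hbih, x, y, hxy, f, hfS, hf⟩ := hS
    rw [ptOfV_iff] at hxy
    exact Pool.Agent.Y713.FI.diverges_pow p rfl hr2 hn S f hfS (hbih f hfS) x y hxy.1 hxy.2.2 hf s
      hcon.le hs

/-- The values `n / (n + 1 - p ^ e)` are dense in `[1, ∞)`. -/
theorem dense_values (p : ℕ) [Fact p.Prime] {α ε : ℝ} (hα : 1 ≤ α) (hε : 0 < ε) :
    ∃ e n : ℕ, 1 ≤ e ∧ p ^ e ≤ n ∧ |(n : ℝ) / ((n : ℝ) + 1 - (p ^ e : ℕ)) - α| < ε := by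
  wlog h1 : 1 < α generalizing α ε with H
  · have h2 : α = 1 := le_antisymm (not_lt.1 h1) hα
    obtain ⟨e, n, he, hn, h⟩ := H (α := 1 + ε / 2) (ε := ε / 2) (by linarith) (by linarith)
      (by linarith)
    refine ⟨e, n, he, hn, ?_⟩
    rw [h2]
    rw [abs_lt] at h ⊢
    constructor <;> linarith [h.1, h.2]
  have hp1 : 1 < (p : ℝ) := by exact_mod_cast (Fact.out : p.Prime).one_lt
  obtain ⟨e0, he0⟩ := pow_unbounded_of_one_lt ((2 * α - 1) * (α - 1) / ε + 1) hp1
  obtain ⟨r, hr⟩ : ∃ r : ℕ, r = p ^ (e0 + 1) := ⟨_, rfl⟩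
  have hrr : (2 * α - 1) * (α - 1) / ε + 1 < (r : ℝ) := by
    refine he0.trans_le ?_
    rw [hr, Nat.cast_pow]
    exact pow_le_pow_right₀ hp1.le (Nat.le_succ e0)
  have hα1 : 0 < α - 1 := by linarith
  obtain ⟨c, hc⟩ : ∃ c : ℝ, c = α / (α - 1) * r := ⟨_, rfl⟩
  have hr0 : (0 : ℝ) < r := by
    have : 0 ≤ (2 * α - 1) * (α - 1) / ε := by
      apply div_nonneg _ hε.le
      exact mul_nonneg (by linarith) hα1.le
    linarith
  have hc0 : 0 ≤ c := by rw [hc]; positivity
  refine ⟨e0 + 1, ⌈c⌉₊, Nat.le_add_left 1 e0, ?_, ?_⟩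
  · rw [← hr]
    have h2 : (r : ℝ) ≤ c := by
      rw [hc]
      have : 1 ≤ α / (α - 1) := by
        rw [le_div_iff₀ hα1]
        linarith
      nlinarith
    exact_mod_cast h2.trans (Nat.le_ceil c)
  · rw [← hr]
    obtain ⟨n, hn⟩ : ∃ n : ℕ, n = ⌈c⌉₊ := ⟨_, rfl⟩
    rw [← hn]
    have h2 : c ≤ n := hn ▸ Nat.le_ceil c
    have h3 : (n : ℝ) < c + 1 := hn ▸ Nat.ceil_lt_add_one hc0
    have h4 : (α - 1) * c = α * r := by
      rw [hc]
      field_simp
    have h5 : α * r ≤ (α - 1) * n := by rw [← h4]; exact mul_le_mul_of_nonneg_left h2 hα1.le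
    have h6 : (α - 1) * n < α * r + (α - 1) := by
      have := mul_lt_mul_of_pos_left h3 hα1
      linarith
    have h7 : (r : ℝ) < (α - 1) * ((n : ℝ) + 1 - r) := by
      linarith
    have h8 : 0 < (n : ℝ) + 1 - r := by
      by_contra hcon
      push Not at hcon
      nlinarith
    have h9 : (n : ℝ) / ((n : ℝ) + 1 - r) - α = (α * r - α - (α - 1) * n) / ((n : ℝ) + 1 - r) := by
      field_simp
      ring
    rw [h9, abs_div, abs_of_pos h8, div_lt_iff₀ h8]
    have h10 : |α * r - α - (α - 1) * n| ≤ 2 * α - 1 := by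
      rw [abs_le]
      constructor <;> linarith
    have h11 : (2 * α - 1) * (α - 1) < ε * r := by
      have h12 : (2 * α - 1) * (α - 1) / ε < r := by linarith
      rw [div_lt_iff₀ hε] at h12
      linarith
    have h13 : (2 * α - 1) * (α - 1) < (ε * ((n : ℝ) + 1 - r)) * (α - 1) := by
      have h14 : ε * r < ε * ((α - 1) * ((n : ℝ) + 1 - r)) := mul_lt_mul_of_pos_left h7 hε
      linarith
    exact h10.trans_lt (lt_of_mul_lt_mul_right h13 hα1.le)

/-- **Main result.** Let `F` be a finite field of characteristic `p`.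

1. For `K = F(t)`, `e ≥ 1` and `n ≥ r = p ^ e` the hypersurface `V : ∑ x_i y_i ^ r = 0` of bidegree
   `(1, r)` in `P^n x P^n` is smooth and geometrically irreducible, every dense open `U ⊆ V` has
   infinitely many `K`-points, and the height zeta function of every dense open `U ⊆ V` for the
   height given by the embedding by `O(n, n + 1 - r)`, the anticanonical sheaf of `V`, has abscissa
   of convergence exactly `n / (n + 1 - r) > 1`.
2. For every `α ≥ 1` and `ε > 0` there are `e ≥ 1` and `n ≥ p ^ e` such that the abscissa of every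
   dense open subset of this `V` differs from `α` by less than `ε`. -/
theorem result (F : Type) [Field F] [Finite F] (p : ℕ) [Fact p.Prime] [CharP F p] :
    (∀ e n : ℕ, 1 ≤ e → p ^ e ≤ n →
      IsSmoothV (AlgebraicClosure (RatFunc F)) n (p ^ e) ∧
      IsIrreducibleV (AlgebraicClosure (RatFunc F)) n (p ^ e) ∧
      (∀ S, IsDenseOpen (RatFunc F) n (p ^ e) S → Infinite (RatPts (RatFunc F) n (p ^ e) S)) ∧
      1 < (n : ℝ) / ((n : ℝ) + 1 - (p ^ e : ℕ)) ∧
      ∀ S, IsDenseOpen (RatFunc F) n (p ^ e) S →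
        abscissa F n (p ^ e) S = (((n : ℝ) / ((n : ℝ) + 1 - (p ^ e : ℕ)) : ℝ) : EReal)) ∧
    ∀ α ε : ℝ, 1 ≤ α → 0 < ε → ∃ e n : ℕ, 1 ≤ e ∧ p ^ e ≤ n ∧
      ∀ S, IsDenseOpen (RatFunc F) n (p ^ e) S → ∃ θ : ℝ,
        abscissa F n (p ^ e) S = (θ : EReal) ∧ |θ - α| < ε := by
  refine ⟨fun e n he hn => ?_, fun α ε hα hε => ?_⟩
  · have hr2 : 2 ≤ p ^ e := by
      calc 2 ≤ p := (Fact.out : p.Prime).two_le
        _ = p ^ 1 := (pow_one p).symm
        _ ≤ p ^ e := Nat.pow_le_pow_right (Fact.out : p.Prime).pos he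
    refine ⟨smooth, ?_, ?_, one_lt hr2 hn, fun S hS => exact F p e n he hn S hS⟩
    · intro f g hf hg
      simp only [ptOfV_iff] at hf hg ⊢
      exact irreducible_aux (by omega) (p ^ e) f g hf hg
    · intro S hS
      by_contra hcon
      rw [not_infinite_iff_finite] at hcon
      obtain ⟨hbih, x, y, hxy, f, hfS, hf⟩ := hS
      rw [ptOfV_iff] at hxy
      exact Pool.Agent.Y713.FI.diverges_pow p rfl hr2 hn S f hfS (hbih f hfS) x y hxy.1 hxy.2.2 hf
        _ le_rfl (Summable.of_finite)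
  · obtain ⟨e, n, he, hn, h⟩ := dense_values p hα hε
    exact ⟨e, n, he, hn, fun S hS => ⟨_, exact F p e n he hn S hS, h⟩⟩

end Pool.Agent.Results.MP_7b039f_nt.AllFrobeniusPowers
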